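import Pool.Agent.H773.LK.Spec

/-!
# Project LK: scalar facts on the outgoing roots (KPL)
-/

set_option autoImplicit false

noncomputable section

namespace Pool.Agent.H196.LKKPL

open MeasureTheory Filter Topology Set
open scoped ENNReal NNReal ComplexConjugate InnerProductSpace
open Pool.Agent.H773.LK

theorem csq_eq (w : ℂ) : csq w = w ^ (((1 / 2 : ℝ) : ℝ) : ℂ) := by
  unfold csq; push_cast; rfl

theorem csq_sq (w : ℂ) : csq w ^ 2 = w := by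
  unfold csq
  rw [← Complex.cpow_nat_mul]
  norm_num

theorem csq_norm (w : ℂ) : ‖csq w‖ ^ 2 = ‖w‖ := by
  rw [← norm_pow, csq_sq]

theorem csq_re {w : ℂ} (hw : 0 ≤ w.im) : 0 ≤ (csq w).re := by
  rw [csq_eq, Complex.cpow_ofReal_re]
  have h1 := Complex.arg_nonneg_iff.2 hw
  have h2 := Complex.arg_le_pi w
  refine mul_nonneg (Real.rpow_nonneg (norm_nonneg _) _) (Real.cos_nonneg_of_mem_Icc ⟨?_, ?_⟩)
  · linarith [Real.pi_pos]
  · linarith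

theorem csq_im {w : ℂ} (hw : 0 ≤ w.im) : 0 ≤ (csq w).im := by
  rw [csq_eq, Complex.cpow_ofReal_im]
  have h1 := Complex.arg_nonneg_iff.2 hw
  have h2 := Complex.arg_le_pi w
  refine mul_nonneg (Real.rpow_nonneg (norm_nonneg _) _) (Real.sin_nonneg_of_nonneg_of_le_pi ?_ ?_)
  · linarith
  · linarith [Real.pi_pos]

theorem csq_im_pos {w : ℂ} (hw : 0 < w.im) : 0 < (csq w).im := by
  rcases (csq_im hw.le).lt_or_eq with h | h
  · exact h
  · exfalso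
    have h1 := csq_sq w
    have h2 := congrArg Complex.im h1
    rw [pow_two, Complex.mul_im, ← h] at h2
    simp at h2
    exact absurd h2 (ne_of_gt hw).symm

theorem csq_neg {x : ℝ} (hx : 0 < x) : csq (((-x : ℝ)) : ℂ) = Complex.I * (√x : ℝ) := by
  rw [csq_eq, Complex.cpow_ofReal, Complex.arg_ofReal_of_neg (by linarith)]
  have h1 : Real.pi * (1 / 2) = Real.pi / 2 := by ring
  rw [h1, Real.cos_pi_div_two, Real.sin_pi_div_two, Complex.norm_real, Real.norm_eq_abs,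
    abs_neg, abs_of_pos hx, ← Real.sqrt_eq_rpow]
  simp [mul_comm]

variable {β θ : ℝ}

theorem kpl_sq (z : ℂ) (m : ℤ) :
    kpl β θ z m ^ 2 = (((β * ((m : ℝ) + θ)) ^ 2 : ℝ) : ℂ) - z := by
  unfold kpl
  rw [mul_pow, csq_sq, neg_sq, Complex.I_sq]
  ring

theorem kpl_re {z : ℂ} (m : ℤ) :
    (kpl β θ z m).re = (csq (z - (((β * ((m : ℝ) + θ)) ^ 2 : ℝ) : ℂ))).im := by
  unfold kpl
  simp

theorem kpl_im {z : ℂ} (m : ℤ) :
    (kpl β θ z m).im = -(csq (z - (((β * ((m : ℝ) + θ)) ^ 2 : ℝ) : ℂ))).re := by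
  unfold kpl
  simp

theorem arg_im (z : ℂ) (m : ℤ) : (z - (((β * ((m : ℝ) + θ)) ^ 2 : ℝ) : ℂ)).im = z.im := by
  rw [Complex.sub_im, Complex.ofReal_im, sub_zero]

theorem kpl_re_nn {z : ℂ} (hz : 0 ≤ z.im) (m : ℤ) : 0 ≤ (kpl β θ z m).re := by
  rw [kpl_re]
  exact csq_im (by rw [arg_im]; exact hz)

theorem kpl_im_np {z : ℂ} (hz : 0 ≤ z.im) (m : ℤ) : (kpl β θ z m).im ≤ 0 := by
  rw [kpl_im]
  have := csq_re (w := z - (((β * ((m : ℝ) + θ)) ^ 2 : ℝ) : ℂ)) (by rw [arg_im]; exact hz)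
  linarith

theorem kpl_re_pos {z : ℂ} (hz : 0 < z.im) (m : ℤ) : 0 < (kpl β θ z m).re := by
  rw [kpl_re]
  exact csq_im_pos (by rw [arg_im]; exact hz)

theorem kpl_norm_sq (z : ℂ) (m : ℤ) :
    ‖kpl β θ z m‖ ^ 2 = ‖z - (((β * ((m : ℝ) + θ)) ^ 2 : ℝ) : ℂ)‖ := by
  rw [← norm_pow, kpl_sq, norm_sub_rev]

theorem kpl_lower {z : ℂ} {m : ℤ} {η : ℝ}
    (h : η ≤ ‖z - (((β * ((m : ℝ) + θ)) ^ 2 : ℝ) : ℂ)‖) : √η ≤ ‖kpl β θ z m‖ := by
  rw [← Real.sqrt_sq (norm_nonneg (kpl β θ z m)), kpl_norm_sq]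
  exact Real.sqrt_le_sqrt h

/-- the distance to the reference sequence -/
theorem kpl_near (hβ : 0 < β) (hθ : 0 < θ) {z : ℂ} (hz : 0 ≤ z.im) {Z : ℝ} (hZ : ‖z‖ ≤ Z)
    (m : ℤ) : ‖kpl β θ z m - ((β * |(m : ℝ)| : ℝ) : ℂ)‖ ≤
      2 * β * θ + (β ^ 2 * θ ^ 2 + Z) / β + (1 + Z + β ^ 2 * θ ^ 2) := by
  have hZ0 : 0 ≤ Z := (norm_nonneg _).trans hZ
  by_cases hm : m = 0
  · subst hm
    have h1 := kpl_norm_sq (β := β) (θ := θ) z 0
    have h2 : ‖z - (((β * (((0 : ℤ) : ℝ) + θ)) ^ 2 : ℝ) : ℂ)‖ ≤ Z + β ^ 2 * θ ^ 2 := by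
      refine (norm_sub_le _ _).trans (add_le_add hZ ?_)
      rw [Complex.norm_real, Real.norm_eq_abs, abs_of_nonneg (sq_nonneg _)]
      rw [Int.cast_zero, zero_add, mul_pow]
    have h3 : ‖kpl β θ z 0‖ ≤ 1 + Z + β ^ 2 * θ ^ 2 := by
      nlinarith [norm_nonneg (kpl β θ z 0), sq_nonneg (‖kpl β θ z 0‖ - 1)]
    have h4 : kpl β θ z 0 - ((β * |((0 : ℤ) : ℝ)| : ℝ) : ℂ) = kpl β θ z 0 := by simp
    rw [h4]
    have h5 : 0 ≤ 2 * β * θ + (β ^ 2 * θ ^ 2 + Z) / β := by positivity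
    linarith
  · set A : ℝ := β * |(m : ℝ)| with hA
    have hm1 : (1 : ℝ) ≤ |(m : ℝ)| := by
      have : (1 : ℤ) ≤ |m| := Int.one_le_abs hm
      exact_mod_cast this
    have hA0 : β ≤ A := by rw [hA]; nlinarith
    have hApos : 0 < A := hβ.trans_le hA0
    have h1 : ‖kpl β θ z m - (A : ℂ)‖ * ‖kpl β θ z m + (A : ℂ)‖ ≤
        2 * β ^ 2 * |(m : ℝ)| * θ + β ^ 2 * θ ^ 2 + Z := by
      rw [← norm_mul]
      have e1 : (kpl β θ z m - (A : ℂ)) * (kpl β θ z m + (A : ℂ)) =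
          (((2 * β ^ 2 * m * θ + β ^ 2 * θ ^ 2 : ℝ)) : ℂ) - z := by
        have e2 : (kpl β θ z m - (A : ℂ)) * (kpl β θ z m + (A : ℂ)) =
          kpl β θ z m ^ 2 - ((A ^ 2 : ℝ) : ℂ) := by push_cast; ring
        have e3 : A ^ 2 = β ^ 2 * (m : ℝ) ^ 2 := by rw [hA, mul_pow, sq_abs]
        rw [e2, kpl_sq, e3]
        push_cast
        ring
      rw [e1]
      refine (norm_sub_le _ _).trans (add_le_add ?_ hZ)
      rw [Complex.norm_real, Real.norm_eq_abs]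
      refine (abs_add_le _ _).trans (add_le_add ?_ ?_)
      · rw [abs_mul, abs_mul, abs_of_pos hθ, abs_of_nonneg (by positivity : 0 ≤ 2 * β ^ 2)]
      · rw [abs_of_nonneg (by positivity)]
    have h2 : A ≤ ‖kpl β θ z m + (A : ℂ)‖ := by
      have h3 := Complex.re_le_norm (kpl β θ z m + (A : ℂ))
      rw [Complex.add_re, Complex.ofReal_re] at h3
      have h4 := kpl_re_nn (β := β) (θ := θ) hz m
      linarith
    have h5 : ‖kpl β θ z m - (A : ℂ)‖ * A ≤ 2 * β ^ 2 * |(m : ℝ)| * θ + β ^ 2 * θ ^ 2 + Z :=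
      (mul_le_mul_of_nonneg_left h2 (norm_nonneg _)).trans h1
    have h6 : ‖kpl β θ z m - (A : ℂ)‖ ≤ 2 * β * θ + (β ^ 2 * θ ^ 2 + Z) / β := by
      have h7 : ‖kpl β θ z m - (A : ℂ)‖ ≤ (2 * β ^ 2 * |(m : ℝ)| * θ + β ^ 2 * θ ^ 2 + Z) / A := by
        rw [le_div_iff₀ hApos]; exact h5
      refine h7.trans ?_
      have h8 : (2 * β ^ 2 * |(m : ℝ)| * θ + β ^ 2 * θ ^ 2 + Z) / A =
          2 * β * θ + (β ^ 2 * θ ^ 2 + Z) / A := by
        rw [hA]; field_simp; ring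
      rw [h8]
      gcongr
    have h9 : 0 ≤ 1 + Z + β ^ 2 * θ ^ 2 := by positivity
    linarith

/-- Lipschitz estimate -/
theorem kpl_lip {z z' : ℂ} (hz : 0 ≤ z.im) (hz' : 0 ≤ z'.im) {c₀ : ℝ} (hc : 0 < c₀) (m : ℤ)
    (h : c₀ ≤ ‖kpl β θ z m‖) :
    ‖kpl β θ z m - kpl β θ z' m‖ ≤ c₀⁻¹ * ‖z - z'‖ := by
  have h1 : (kpl β θ z m - kpl β θ z' m) * (kpl β θ z m + kpl β θ z' m) = z' - z := by
    have e1 : (kpl β θ z m - kpl β θ z' m) * (kpl β θ z m + kpl β θ z' m) =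
      kpl β θ z m ^ 2 - kpl β θ z' m ^ 2 := by ring
    rw [e1, kpl_sq, kpl_sq]
    ring
  have h2 : ‖kpl β θ z m‖ ≤ ‖kpl β θ z m + kpl β θ z' m‖ := by
    have a1 := kpl_re_nn (β := β) (θ := θ) hz m
    have a2 := kpl_re_nn (β := β) (θ := θ) hz' m
    have a3 := kpl_im_np (β := β) (θ := θ) hz m
    have a4 := kpl_im_np (β := β) (θ := θ) hz' m
    rw [← sq_le_sq₀ (norm_nonneg _) (norm_nonneg _), ← Complex.normSq_eq_norm_sq,
      ← Complex.normSq_eq_norm_sq, Complex.normSq_apply, Complex.normSq_apply, Complex.add_re,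
      Complex.add_im]
    nlinarith
  have h3 : ‖kpl β θ z m - kpl β θ z' m‖ * ‖kpl β θ z m + kpl β θ z' m‖ = ‖z - z'‖ := by
    rw [← norm_mul, h1, norm_sub_rev]
  have h4 : ‖kpl β θ z m - kpl β θ z' m‖ * c₀ ≤ ‖z - z'‖ := by
    rw [← h3]
    exact mul_le_mul_of_nonneg_left (h.trans h2) (norm_nonneg _)
  rw [inv_mul_eq_div, le_div_iff₀ hc]
  exact h4

/-- the distance to the thresholds -/
theorem exists_gap (hβ : 0 < β) (hθ : 0 < θ) (hθ1 : θ < 1) {lam : ℝ} (h : lam ∉ Thr β θ) :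
    ∃ η : ℝ, 0 < η ∧ ∀ m : ℤ, η ≤ |lam - (β * ((m : ℝ) + θ)) ^ 2| := by
  have ht : Tendsto (fun m : ℤ => |lam - (β * ((m : ℝ) + θ)) ^ 2|) cofinite atTop := by
    have h1 : Tendsto (fun m : ℤ => |(m : ℝ)|) cofinite atTop :=
      tendsto_norm_cocompact_atTop.comp Int.tendsto_coe_cofinite
    have h2 : Tendsto (fun m : ℤ => β ^ 2 * |(m : ℝ)| + (-(2 * β ^ 2) - |lam|)) cofinite atTop :=
      tendsto_atTop_add_const_right _ _ (h1.const_mul_atTop (by positivity))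
    refine tendsto_atTop_mono (fun m => ?_) h2
    have h3 : |(m : ℝ)| - 2 ≤ ((m : ℝ) + θ) ^ 2 := by
      have h4 : |(m : ℝ)| ≤ |(m : ℝ) + θ| + θ := by
        have := abs_sub ((m : ℝ) + θ) θ
        rw [add_sub_cancel_right, abs_of_pos hθ] at this
        exact this
      have h5 : |(m : ℝ) + θ| - 1 ≤ ((m : ℝ) + θ) ^ 2 := by
        rw [← sq_abs]
        nlinarith [sq_nonneg (|(m : ℝ) + θ| - 1), abs_nonneg ((m : ℝ) + θ)]
      linarith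
    have h6 : (β * ((m : ℝ) + θ)) ^ 2 - |lam| ≤ |lam - (β * ((m : ℝ) + θ)) ^ 2| := by
      have := abs_sub_abs_le_abs_sub ((β * ((m : ℝ) + θ)) ^ 2) lam
      rw [abs_of_nonneg (sq_nonneg _), abs_sub_comm] at this
      exact this
    have h7 : β ^ 2 * (|(m : ℝ)| - 2) ≤ (β * ((m : ℝ) + θ)) ^ 2 := by
      rw [mul_pow]
      exact mul_le_mul_of_nonneg_left h3 (sq_nonneg _)
    linarith
  obtain ⟨m₀, hm₀⟩ := ht.exists_forall_le
  refine ⟨|lam - (β * ((m₀ : ℝ) + θ)) ^ 2|, ?_, hm₀⟩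
  rw [abs_pos, sub_ne_zero]
  intro h8
  exact h ⟨m₀, h8⟩

theorem t_KPL : S_KPL := by
  intro β θ hβ hθ hθ1
  refine ⟨?_, ?_, ?_⟩
  · intro lam hlam
    obtain ⟨η, hη, hη'⟩ := exists_gap hβ hθ hθ1 hlam
    have hc : 0 < √(η / 2) := Real.sqrt_pos.2 (by positivity)
    refine ⟨η / 2, √(η / 2), 2 * β * θ + (β ^ 2 * θ ^ 2 + (|lam| + η / 2)) / β +
      (1 + (|lam| + η / 2) + β ^ 2 * θ ^ 2), (√(η / 2))⁻¹, by positivity, hc, by positivity, ?_⟩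
    · intro z hz hzl
      have hlow : ∀ m, √(η / 2) ≤ ‖kpl β θ z m‖ := by
        intro m
        refine kpl_lower ?_
        have h1 : ‖(lam : ℂ) - (((β * ((m : ℝ) + θ)) ^ 2 : ℝ) : ℂ)‖ ≤
            ‖z - (((β * ((m : ℝ) + θ)) ^ 2 : ℝ) : ℂ)‖ + ‖z - lam‖ := by
          have e : (lam : ℂ) - (((β * ((m : ℝ) + θ)) ^ 2 : ℝ) : ℂ) =
            (z - (((β * ((m : ℝ) + θ)) ^ 2 : ℝ) : ℂ)) - (z - lam) := by ring
          rw [e]
          exact norm_sub_le _ _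
        have h2 : ‖(lam : ℂ) - (((β * ((m : ℝ) + θ)) ^ 2 : ℝ) : ℂ)‖ =
            |lam - (β * ((m : ℝ) + θ)) ^ 2| := by
          rw [← Complex.ofReal_sub, Complex.norm_real, Real.norm_eq_abs]
        have h3 := hη' m
        rw [h2] at h1
        linarith
      have hZ : ‖z‖ ≤ |lam| + η / 2 := by
        have e : z = (lam : ℂ) + (z - lam) := by ring
        rw [e]
        refine (norm_add_le _ _).trans ?_
        rw [Complex.norm_real, Real.norm_eq_abs]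
        linarith
      refine ⟨⟨hlow, fun m => kpl_near hβ hθ hz hZ m⟩, fun m => ?_⟩
      exact kpl_lip hz (by simp) hc m (hlow m)
  · intro z hz
    refine ⟨⟨√z.im, 2 * β * θ + (β ^ 2 * θ ^ 2 + ‖z‖) / β +
      (1 + ‖z‖ + β ^ 2 * θ ^ 2), Real.sqrt_pos.2 hz, ⟨fun m => kpl_lower ?_,
      fun m => kpl_near hβ hθ hz.le (le_refl _) m⟩⟩, fun m => ⟨kpl_re_pos hz m, kpl_sq z m⟩⟩
    have h1 := Complex.abs_im_le_norm (z - (((β * ((m : ℝ) + θ)) ^ 2 : ℝ) : ℂ))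
    rw [arg_im, abs_of_pos hz] at h1
    exact h1
  · intro M hM m
    unfold kpl
    have h1 : -(M : ℂ) - (((β * ((m : ℝ) + θ)) ^ 2 : ℝ) : ℂ) =
        (((-((β * ((m : ℝ) + θ)) ^ 2 + M) : ℝ)) : ℂ) := by
      push_cast; ring
    rw [h1, csq_neg (by positivity), ← mul_assoc]
    have h2 : -Complex.I * Complex.I = 1 := by
      rw [neg_mul, Complex.I_mul_I, neg_neg]
    rw [h2, one_mul]

end Pool.Agent.H196.LKKPL
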